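import Mathlib
import Pool.Agent.Helper95.FL.Stmts2

set_option autoImplicit false

/-!
# Project XT, piece I45: zero triangles of the instances
-/

namespace Pool.Agent.Helper15.FL

open Pool.Agent.Helper22.ETModel
open Pool.Agent.Helper95.FL
open scoped Classical

variable {X V : Type} {𝒞 : Cx X V} {n : ℕ}

theorem ty_edge {e : V × V} (he : 𝒞.IsEdge e) : 𝒞.ty e.2 = 𝒞.ty e.1 + 1 := by
  obtain ⟨s, x, rfl⟩ := he
  simp only [Cx.edge, Cx.ty_vert]
  revert s; decide

theorem ty_edge_ne {e : V × V} (he : 𝒞.IsEdge e) : 𝒞.ty e.2 ≠ 𝒞.ty e.1 := by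
  rw [ty_edge he]
  generalize 𝒞.ty e.1 = t
  revert t; decide

theorem no_swap (E : Emb 𝒞 n) {e e' : V × V} (he : 𝒞.IsEdge e) (he' : 𝒞.IsEdge e')
    {i j : Fin n} (h : E.img e = (i, j)) (h' : E.img e' = (j, i)) : False := by
  have h1 : E.ν e.1 = E.ν e'.2 := by
    have a := congrArg Prod.fst h
    have b := congrArg Prod.snd h'
    simp only [Emb.img] at a b
    rw [a, b]
  have h2 : E.ν e.2 = E.ν e'.1 := by
    have a := congrArg Prod.snd h
    have b := congrArg Prod.fst h'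
    simp only [Emb.img] at a b
    rw [a, b]
  have h3 := E.sep _ _ h1
  have h4 := E.sep _ _ h2
  have h5 := ty_edge he
  have h6 := ty_edge he'
  rw [h4, h3, h6] at h5
  revert h5
  generalize 𝒞.ty e'.1 = t
  revert t; decide

/-- Good edges with the same unordered image are equal. -/
theorem good_unique (E : Emb 𝒞 n) {e e' : V × V} (he : E.Good e) (he' : E.Good e')
    {i j : Fin n} (h : E.img e = (i, j) ∨ E.img e = (j, i))
    (h' : E.img e' = (i, j) ∨ E.img e' = (j, i)) : e' = e := by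
  rcases h with h | h <;> rcases h' with h' | h'
  · exact he.2 e' he'.1 (by rw [h, h'])
  · exact (no_swap E he.1 he'.1 h h').elim
  · exact (no_swap E he.1 he'.1 h h').elim
  · exact he.2 e' he'.1 (by rw [h, h'])

variable [Fintype V]

theorem flag_iff (E : Emb 𝒞 n) (W : V × V → ℤ) (i j : Fin n) :
    (E.inst W).flag i j = true ↔ ∃ e, E.Good e ∧ (E.img e = (i, j) ∨ E.img e = (j, i)) := by
  simp only [Emb.inst, decide_eq_true_eq]

theorem wt_eq (E : Emb 𝒞 n) (W : V × V → ℤ) {i j : Fin n} {e : V × V} (he : E.Good e)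
    (h : E.img e = (i, j) ∨ E.img e = (j, i)) : (E.inst W).wt i j = W e := by
  simp only [Emb.inst]
  rw [Finset.sum_eq_single e]
  · rw [if_pos ⟨he, h⟩]
  · intro e' _ hne
    rw [if_neg]
    rintro ⟨h1, h2⟩
    exact hne (good_unique E he h1 h h2)
  · intro h'
    exact (h' (Finset.mem_univ _)).elim

theorem stYes : StYes := by
  intro X V _ 𝒞 n E W x₀ hg hh
  have hne : ∀ s t : Fin 3, s ≠ t → E.ν (𝒞.vert s x₀) ≠ E.ν (𝒞.vert t x₀) := by
    intro s t hst h
    have := E.sep _ _ h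
    rw [𝒞.ty_vert, 𝒞.ty_vert] at this
    exact hst this
  have e2 : E.img (𝒞.edge 2 x₀) = (E.ν (𝒞.vert 0 x₀), E.ν (𝒞.vert 1 x₀)) := rfl
  have e0 : E.img (𝒞.edge 0 x₀) = (E.ν (𝒞.vert 1 x₀), E.ν (𝒞.vert 2 x₀)) := rfl
  have e1 : E.img (𝒞.edge 1 x₀) = (E.ν (𝒞.vert 2 x₀), E.ν (𝒞.vert 0 x₀)) := rfl
  refine ⟨E.ν (𝒞.vert 0 x₀), E.ν (𝒞.vert 1 x₀), E.ν (𝒞.vert 2 x₀), hne _ _ (by decide),
    hne _ _ (by decide), hne _ _ (by decide), ?_, ?_, ?_, ?_⟩
  · rw [flag_iff]; exact ⟨_, hg 2, Or.inl e2⟩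
  · rw [flag_iff]; exact ⟨_, hg 0, Or.inl e0⟩
  · rw [flag_iff]; exact ⟨_, hg 1, Or.inr e1⟩
  · rw [wt_eq E W (hg 2) (Or.inl e2), wt_eq E W (hg 0) (Or.inl e0), wt_eq E W (hg 1) (Or.inr e1)]
    rw [Cx.h, Fin.sum_univ_three] at hh
    linarith

omit [Fintype V] in
/-- Edges with different unordered images are different. -/
theorem edge_ne (E : Emb 𝒞 n) {e e' : V × V} {i j k : Fin n} (hij : i ≠ j) (hik : i ≠ k)
    (h : E.img e = (i, j) ∨ E.img e = (j, i)) (h' : E.img e' = (j, k) ∨ E.img e' = (k, j)) :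
    e ≠ e' := by
  rintro rfl
  rcases h with h | h <;> rcases h' with h' | h' <;> rw [h] at h' <;>
    simp only [Prod.mk.injEq] at h'
  · exact hij h'.1
  · exact hik h'.1
  · exact hik h'.2
  · exact hij h'.2

theorem stNo : StNo := by
  intro X V _ 𝒞 n E W hY
  obtain ⟨i, j, k, hij, hjk, hik, f1, f2, f3, hs⟩ := hY
  rw [flag_iff] at f1 f2 f3
  obtain ⟨e1, g1, h1⟩ := f1
  obtain ⟨e2, g2, h2⟩ := f2
  obtain ⟨e3, g3, h3⟩ := f3
  rw [wt_eq E W g1 h1, wt_eq E W g2 h2, wt_eq E W g3 h3] at hs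
  have n12 : e1 ≠ e2 := edge_ne E hij hik h1 h2
  have n13 : e1 ≠ e3 := edge_ne E hij.symm hjk h1.symm h3
  have n23 : e2 ≠ e3 := edge_ne E hjk hij.symm h2 h3.symm
  refine ⟨fun e => (if e = e1 then 1 else 0) + (if e = e2 then 1 else 0) +
    (if e = e3 then 1 else 0), ?_, ?_, ?_, ?_, ?_⟩
  · intro e he
    by_cases c1 : e = e1
    · rw [c1]; exact g1.1
    by_cases c2 : e = e2
    · rw [c2]; exact g2.1
    by_cases c3 : e = e3
    · rw [c3]; exact g3.1
    simp [c1, c2, c3] at he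
  · left
    calc _ ≤ ({e1, e2, e3} : Finset (V × V)).card := by
          apply Finset.card_le_card
          intro e he
          rw [Finset.mem_filter] at he
          by_contra hc
          simp only [Finset.mem_insert, Finset.mem_singleton, not_or] at hc
          obtain ⟨c1, c2, c3⟩ := hc
          simp [c1, c2, c3] at he
      _ ≤ 3 := Finset.card_le_three
      _ ≤ 4 := by norm_num
  · intro e
    by_cases c1 : e = e1
    · subst c1; simp [n12, n13]
    by_cases c2 : e = e2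
    · subst c2; simp [n23, n12.symm]
    by_cases c3 : e = e3
    · subst c3; simp [n13.symm, n23.symm]
    simp [c1, c2, c3]
  · intro h
    have := congrFun h e1
    simp [n12, n13] at this
  · simp only [pair, add_mul, Finset.sum_add_distrib, ite_mul, one_mul, zero_mul,
      Finset.sum_ite_eq', Finset.mem_univ, if_true]
    linarith

end Pool.Agent.Helper15.FL
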